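import Pool.Agent.Helper95.DZ.RIX
import Pool.Agent.Helper96.DZ.Stmts3

set_option autoImplicit false

namespace Pool.Agent.Helper95.DZ

open Pool.Agent.Helper40.DZ

/-- RIX -/
theorem st_RIX : ST_RIX := by
  intro r K _ _ F C hC hF ε hε
  obtain ⟨G, R, hG, hR, h1, h2, _, h4⟩ := rix r K F C hC hF ε hε
  exact ⟨⟨G, hG⟩, ⟨R, hR⟩, h1, h2, h4⟩

/-- RIS -/
theorem st_RIS : ST_RIS := ris

end Pool.Agent.Helper95.DZ
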