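import Pool.Agent.Helper95.DZ.Sandwich
import Pool.Agent.Helper40.DZ.Stmts

/-!
Functions on `T r × K` which are continuous at almost all fibres (MP_7a8f48_an, rows RIX, RIS).
-/

set_option autoImplicit false

open Finset Filter MeasureTheory Topology
open scoped ENNReal

namespace Pool.Agent.Helper95.DZ

open Pool.Agent.Helper16.AZ (T mm)
open Pool.Agent.Helper40.DZ

theorem mm_dense {r : ℕ} {P : T r → Prop} (h : ∀ᵐ x ∂(mm r), P x) : Dense {x | P x} := by
  have : (mm r).IsOpenPosMeasure := by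
    unfold mm
    infer_instance
  exact Measure.dense_of_ae h

theorem mm_finite (r : ℕ) : IsFiniteMeasure (mm r) := by
  unfold mm
  infer_instance

/-- RIS -/
theorem ris : ST_RIS := by
  intro r V _ _ F C hF hC ε hε
  have := mm_finite r
  obtain ⟨ι, hι, ρ, c, R, h1, h2, h3, h4, h5, h6, h7, h8⟩ :=
    sandwich (mm r) F C hC Set.univ dense_univ hF ε hε
  refine ⟨fun x => ∑ i, ρ i x • F (c i), R, ?_, h2, h6, h7, ?_, h8⟩
  · exact continuous_finsetSum _ fun i _ => (h1 i).smul continuous_const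
  · intro x
    calc ‖∑ i, ρ i x • F (c i)‖ ≤ ∑ i, ρ i x * C := by
          refine (norm_sum_le _ _).trans (Finset.sum_le_sum fun i _ => ?_)
          rw [norm_smul, Real.norm_of_nonneg (h4 i x)]
          exact mul_le_mul_of_nonneg_left (hC _) (h4 i x)
      _ = C := by rw [← Finset.sum_mul, h5, one_mul]

/-- RIX -/
theorem rix (r : ℕ) (K : Type) [TopologicalSpace K] [CompactSpace K] (F : T r × K → ℂ) (C : ℝ)
    (hC : ∀ z, ‖F z‖ ≤ C) (hF : ∀ᵐ x ∂(mm r), ∀ k, ContinuousAt F (x, k)) (ε : ℝ)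
    (hε : 0 < ε) :
    ∃ (G : T r × K → ℂ) (R : T r → ℝ), Continuous G ∧ Continuous R ∧
      (∀ x k, ‖F (x, k) - G (x, k)‖ ≤ R x) ∧ (∀ x, R x ≤ 2 * C) ∧ (∀ z, ‖G z‖ ≤ C) ∧
      ∫ x, R x ∂(mm r) ≤ ε := by
  have := mm_finite r
  have hC0 : ∀ (z : T r × K), 0 ≤ C := fun z => (norm_nonneg _).trans (hC z)
  have hmem : ∀ x : T r, Memℓp (fun k : K => F (x, k)) ∞ := fun x =>
    memℓp_infty ⟨C, by
      rintro _ ⟨k, rfl⟩
      exact hC _⟩
  let f : T r → lp (fun _ : K => ℂ) ∞ := fun x => ⟨fun k => F (x, k), hmem x⟩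
  by_cases hK : Nonempty K
  swap
  · have hK' : IsEmpty K := not_nonempty_iff.mp hK
    refine ⟨fun _ => 0, fun _ => min 0 (2 * C), continuous_const, continuous_const,
      fun x k => hK'.elim k, fun _ => min_le_right _ _, fun z => hK'.elim z.2, ?_⟩
    rw [integral_const, smul_eq_mul, Measure.real, measure_univ, ENNReal.toReal_one, one_mul]
    exact (min_le_left _ _).trans hε.le
  obtain ⟨k0⟩ := hK
  have hfC : ∀ x, ‖f x‖ ≤ C := fun x =>
    lp.norm_le_of_forall_le (hC0 (x, k0)) fun k => hC (x, k)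
  have hcont : ∀ x, (∀ k, ContinuousAt F (x, k)) → ContinuousAt f x := by
    intro x hx
    rw [Metric.continuousAt_iff']
    intro e he
    have h1 : ∀ k ∈ (Set.univ : Set K), ∀ᶠ z : T r × K in 𝓝 (x, k),
        ‖F (z.1, z.2) - F (x, z.2)‖ ≤ e / 2 := by
      intro k _
      have h2 := (hx k)
      have h3 : ContinuousAt (fun z : T r × K => F (x, z.2)) (x, k) := by
        have h4 : ContinuousAt (fun z : T r × K => (x, z.2)) (x, k) := by fun_prop
        exact ContinuousAt.comp (f := fun z : T r × K => (x, z.2)) (g := F) h2 h4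
      rw [Metric.continuousAt_iff'] at h2 h3
      filter_upwards [h2 (e / 4) (by linarith), h3 (e / 4) (by linarith)] with z hz hz2
      rw [dist_eq_norm] at hz hz2
      have h5 : F (z.1, z.2) - F (x, z.2) = (F z - F (x, k)) - (F (x, z.2) - F (x, k)) := by
        rw [Prod.mk.eta]
        abel
      rw [h5]
      have := norm_sub_le (F z - F (x, k)) (F (x, z.2) - F (x, k))
      linarith
    have h6 : ∀ᶠ y in 𝓝 x, ∀ k ∈ (Set.univ : Set K), ‖F (y, k) - F (x, k)‖ ≤ e / 2 :=
      IsCompact.eventually_forall_of_forall_eventually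
        (P := fun y k => ‖F (y, k) - F (x, k)‖ ≤ e / 2) isCompact_univ h1
    filter_upwards [h6] with y hy
    rw [dist_eq_norm]
    have h7 : ‖f y - f x‖ ≤ e / 2 :=
      lp.norm_le_of_forall_le (by linarith) fun k => hy k (Set.mem_univ k)
    linarith
  have hae : ∀ᵐ x ∂(mm r), ContinuousAt f x := hF.mono fun x hx => hcont x hx
  obtain ⟨ι, hι, ρ, c, R, h1, h2, h3, h4, h5, h6, h7, h8⟩ :=
    sandwich (mm r) f C hfC {x | ∀ k, ContinuousAt F (x, k)} (mm_dense hF) hae ε hε
  refine ⟨fun z => ∑ i, ((ρ i z.1 : ℝ) : ℂ) * F (c i, z.2), R, ?_, h2, ?_, h7, ?_, h8⟩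
  · refine continuous_finsetSum _ fun i _ => Continuous.mul ?_ ?_
    · exact Complex.continuous_ofReal.comp ((h1 i).comp continuous_fst)
    · have h9 : Continuous fun k : K => F (c i, k) := by
        rw [continuous_iff_continuousAt]
        intro k
        have h10 : ContinuousAt (fun k : K => (c i, k)) k := by fun_prop
        exact ContinuousAt.comp (f := fun k : K => (c i, k)) (g := F) (h3 i k) h10
      exact h9.comp continuous_snd
  · intro x k
    have h9 := h6 x
    have h10 := lp.norm_apply_le_norm (by simp) (f x - ∑ i, ρ i x • f (c i)) k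
    refine le_trans (le_of_eq ?_) (h10.trans h9)
    congr 1
    rw [lp.coeFn_sub, Pi.sub_apply, lp.coeFn_sum, Finset.sum_apply]
    simp only [lp.coeFn_smul, Pi.smul_apply, Complex.real_smul]
    rfl
  · intro z
    calc ‖∑ i, ((ρ i z.1 : ℝ) : ℂ) * F (c i, z.2)‖ ≤ ∑ i, ρ i z.1 * C := by
          refine (norm_sum_le _ _).trans (Finset.sum_le_sum fun i _ => ?_)
          rw [norm_mul, Complex.norm_real, Real.norm_of_nonneg (h4 i z.1)]
          exact mul_le_mul_of_nonneg_left (hC _) (h4 i z.1)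
      _ = C := by rw [← Finset.sum_mul, h5, one_mul]

end Pool.Agent.Helper95.DZ
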