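import Mathlib

/-!
Functions with a null set of discontinuities are close to partitions of unity with
prescribed centres.
-/

set_option autoImplicit false

open Finset Filter MeasureTheory Topology

namespace Pool.Agent.Helper95.DZ

section

variable {X V : Type*} [PseudoMetricSpace X] [NormedAddCommGroup V]

/-- the oscillation of `f` on a ball -/
noncomputable def osc (f : X → V) (c : X) (r : ℝ) : ℝ :=
  sSup {t | ∃ a b, dist a c < r ∧ dist b c < r ∧ t = ‖f a - f b‖}

theorem osc_bdd {f : X → V} {C : ℝ} (hC : ∀ x, ‖f x‖ ≤ C) (c : X) (r : ℝ) :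
    BddAbove {t | ∃ a b, dist a c < r ∧ dist b c < r ∧ t = ‖f a - f b‖} := by
  refine ⟨2 * C, ?_⟩
  rintro t ⟨a, b, _, _, rfl⟩
  have h1 := norm_sub_le (f a) (f b)
  have h2 := hC a
  have h3 := hC b
  linarith

theorem le_osc {f : X → V} {C : ℝ} (hC : ∀ x, ‖f x‖ ≤ C) {c a b : X} {r : ℝ}
    (ha : dist a c < r) (hb : dist b c < r) : ‖f a - f b‖ ≤ osc f c r :=
  le_csSup (osc_bdd hC c r) ⟨a, b, ha, hb, rfl⟩

theorem osc_le {f : X → V} {c : X} {r M : ℝ} (hr : 0 < r)
    (h : ∀ a b, dist a c < r → dist b c < r → ‖f a - f b‖ ≤ M) : osc f c r ≤ M := by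
  apply csSup_le
  · exact ⟨_, c, c, by rwa [dist_self], by rwa [dist_self], rfl⟩
  · rintro t ⟨a, b, ha, hb, rfl⟩
    exact h a b ha hb

theorem osc_nonneg {f : X → V} {C : ℝ} (hC : ∀ x, ‖f x‖ ≤ C) {c : X} {r : ℝ} (hr : 0 < r) :
    0 ≤ osc f c r :=
  (norm_nonneg _).trans (le_osc hC (a := c) (b := c) (by rwa [dist_self]) (by rwa [dist_self]))

theorem osc_le_two {f : X → V} {C : ℝ} (hC : ∀ x, ‖f x‖ ≤ C) {c : X} {r : ℝ} (hr : 0 < r) :
    osc f c r ≤ 2 * C := by
  apply osc_le hr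
  intro a b _ _
  have h1 := norm_sub_le (f a) (f b)
  have h2 := hC a
  have h3 := hC b
  linarith

theorem osc_tendsto {f : X → V} {C : ℝ} (hC : ∀ x, ‖f x‖ ≤ C) {x : X} (hx : ContinuousAt f x) :
    Tendsto (fun n : ℕ => osc f x (2 * (1 / ((n : ℝ) + 1)))) atTop (𝓝 0) := by
  rw [Metric.tendsto_atTop]
  intro e he
  rw [Metric.continuousAt_iff] at hx
  obtain ⟨δ, hδ, h⟩ := hx (e / 4) (by linarith)
  obtain ⟨N, hN⟩ := exists_nat_one_div_lt (show (0 : ℝ) < δ / 2 by linarith)
  refine ⟨N, fun n hn => ?_⟩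
  have hn1 : (1 : ℝ) / ((n : ℝ) + 1) ≤ 1 / ((N : ℝ) + 1) := by
    apply one_div_le_one_div_of_le
    · positivity
    · have : (N : ℝ) ≤ n := by exact_mod_cast hn
      linarith
  have hpos : 0 < 2 * (1 / ((n : ℝ) + 1)) := by positivity
  rw [Real.dist_eq, sub_zero, abs_of_nonneg (osc_nonneg hC hpos)]
  have : osc f x (2 * (1 / ((n : ℝ) + 1))) ≤ e / 2 := by
    apply osc_le hpos
    intro a b ha hb
    have h1 := h (x := a) (by linarith)
    have h2 := h (x := b) (by linarith)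
    rw [dist_eq_norm] at h1 h2
    have h3 : f a - f b = (f a - f x) - (f b - f x) := by abel
    rw [h3]
    have h4 := norm_sub_le (f a - f x) (f b - f x)
    linarith
  linarith

end

/-- **Partition of unity with centres in a dense set** -/
theorem sandwich {X V : Type*} [PseudoMetricSpace X] [CompactSpace X] [MeasurableSpace X]
    [BorelSpace X] (μ : Measure X) [IsFiniteMeasure μ] [NormedAddCommGroup V] [NormedSpace ℝ V]
    (f : X → V) (C : ℝ) (hC : ∀ x, ‖f x‖ ≤ C) (S : Set X) (hS : Dense S)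
    (hcont : ∀ᵐ x ∂μ, ContinuousAt f x) (ε : ℝ) (hε : 0 < ε) :
    ∃ (ι : Type) (_ : Fintype ι) (ρ : ι → X → ℝ) (c : ι → X) (R : X → ℝ),
      (∀ i, Continuous (ρ i)) ∧ Continuous R ∧ (∀ i, c i ∈ S) ∧ (∀ i x, 0 ≤ ρ i x) ∧
      (∀ x, ∑ i, ρ i x = 1) ∧ (∀ x, ‖f x - ∑ i, ρ i x • f (c i)‖ ≤ R x) ∧
      (∀ x, R x ≤ 2 * C) ∧ ∫ x, R x ∂μ ≤ ε := by
  -- for every radius
  have key : ∀ δ : ℝ, 0 < δ → ∃ (ι : Type) (_ : Fintype ι) (ρ : ι → X → ℝ) (c : ι → X)
      (R : X → ℝ), (∀ i, Continuous (ρ i)) ∧ Continuous R ∧ (∀ i, c i ∈ S) ∧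
      (∀ i x, 0 ≤ ρ i x) ∧ (∀ x, ∑ i, ρ i x = 1) ∧
      (∀ x, ‖f x - ∑ i, ρ i x • f (c i)‖ ≤ R x) ∧ (∀ x, R x ≤ 2 * C) ∧ (∀ x, 0 ≤ R x) ∧
      (∀ x, R x ≤ osc f x (2 * δ)) := by
    intro δ hδ
    have hcov : (Set.univ : Set X) ⊆ ⋃ c ∈ S, Metric.ball c δ := by
      intro x _
      obtain ⟨c, hc, hd⟩ := hS.exists_dist_lt x hδ
      rw [Set.mem_iUnion₂]
      exact ⟨c, hc, hd⟩
    obtain ⟨t, htS, htf, ht⟩ := isCompact_univ.elim_finite_subcover_image
      (b := S) (c := fun c => Metric.ball c δ) (fun _ _ => Metric.isOpen_ball) hcov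
    obtain ⟨n, g, hg⟩ : ∃ (n : ℕ) (g : Fin n → X), Set.range g = t := by
      have := htf.to_subtype
      obtain ⟨n, ⟨e⟩⟩ := Finite.exists_equiv_fin t
      refine ⟨n, fun i => (e.symm i : X), ?_⟩
      ext x
      constructor
      · rintro ⟨i, rfl⟩
        exact (e.symm i).2
      · intro hx
        exact ⟨e ⟨x, hx⟩, by simp⟩
    let ψ : Fin n → X → ℝ := fun i x => max 0 (δ - dist x (g i))
    have hψc : ∀ i, Continuous (ψ i) := fun i =>
      continuous_const.max (continuous_const.sub (continuous_id.dist continuous_const))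
    have hψ0 : ∀ i x, 0 ≤ ψ i x := fun i x => le_max_left _ _
    have hψp : ∀ x, 0 < ∑ i, ψ i x := by
      intro x
      have hx := ht (Set.mem_univ x)
      rw [Set.mem_iUnion₂] at hx
      obtain ⟨c, hc, hd⟩ := hx
      rw [← hg] at hc
      obtain ⟨i, rfl⟩ := hc
      apply Finset.sum_pos' (fun j _ => hψ0 j x)
      refine ⟨i, Finset.mem_univ i, ?_⟩
      apply lt_max_of_lt_right
      rw [Metric.mem_ball] at hd
      linarith
    have hsc : Continuous fun x => ∑ i, ψ i x := continuous_finsetSum _ fun i _ => hψc i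
    let ρ : Fin n → X → ℝ := fun i x => ψ i x / ∑ j, ψ j x
    have hρc : ∀ i, Continuous (ρ i) := fun i => (hψc i).div hsc fun x => (hψp x).ne'
    have hρ0 : ∀ i x, 0 ≤ ρ i x := fun i x => div_nonneg (hψ0 i x) (hψp x).le
    have hρ1 : ∀ x, ∑ i, ρ i x = 1 := by
      intro x
      show ∑ i, ψ i x / ∑ j, ψ j x = 1
      rw [← Finset.sum_div]
      exact div_self (hψp x).ne'
    have hnear : ∀ i x, ρ i x ≠ 0 → dist x (g i) < δ := by
      intro i x h
      by_contra hcon
      push Not at hcon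
      apply h
      show ψ i x / _ = 0
      have : ψ i x = 0 := max_eq_left (by linarith)
      rw [this, zero_div]
    refine ⟨Fin n, inferInstance, ρ, g, fun x => ∑ i, ρ i x * osc f (g i) δ, hρc, ?_, ?_, hρ0,
      hρ1, ?_, ?_, ?_, ?_⟩
    · exact continuous_finsetSum _ fun i _ => (hρc i).mul continuous_const
    · intro i
      apply htS
      rw [← hg]
      exact ⟨i, rfl⟩
    · intro x
      have h1 : f x - ∑ i, ρ i x • f (g i) = ∑ i, ρ i x • (f x - f (g i)) := by
        simp only [smul_sub, Finset.sum_sub_distrib, ← Finset.sum_smul, hρ1, one_smul]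
      rw [h1]
      refine (norm_sum_le _ _).trans (Finset.sum_le_sum fun i _ => ?_)
      rw [norm_smul, Real.norm_of_nonneg (hρ0 i x)]
      by_cases h : ρ i x = 0
      · rw [h, zero_mul, zero_mul]
      · exact mul_le_mul_of_nonneg_left
          (le_osc hC (hnear i x h) (by rwa [dist_self])) (hρ0 i x)
    · intro x
      calc ∑ i, ρ i x * osc f (g i) δ ≤ ∑ i, ρ i x * (2 * C) :=
            Finset.sum_le_sum fun i _ =>
              mul_le_mul_of_nonneg_left (osc_le_two hC hδ) (hρ0 i x)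
        _ = 2 * C := by rw [← Finset.sum_mul, hρ1, one_mul]
    · intro x
      exact Finset.sum_nonneg fun i _ => mul_nonneg (hρ0 i x) (osc_nonneg hC hδ)
    · intro x
      calc ∑ i, ρ i x * osc f (g i) δ ≤ ∑ i, ρ i x * osc f x (2 * δ) := by
            refine Finset.sum_le_sum fun i _ => ?_
            by_cases h : ρ i x = 0
            · rw [h, zero_mul, zero_mul]
            · refine mul_le_mul_of_nonneg_left ?_ (hρ0 i x)
              apply osc_le hδ
              intro a b ha hb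
              have hx := hnear i x h
              rw [dist_comm] at hx
              exact le_osc hC (by linarith [dist_triangle a (g i) x])
                (by linarith [dist_triangle b (g i) x])
        _ = osc f x (2 * δ) := by rw [← Finset.sum_mul, hρ1, one_mul]
  have hpos : ∀ n : ℕ, (0 : ℝ) < 1 / ((n : ℝ) + 1) := fun n => by positivity
  choose ι hι ρ c R h1 h2 h3 h4 h5 h6 h7 h8 h9 using fun n : ℕ => key _ (hpos n)
  have hlim : Tendsto (fun n => ∫ x, R n x ∂μ) atTop (𝓝 (∫ _, (0 : ℝ) ∂μ)) := by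
    apply tendsto_integral_of_dominated_convergence (fun _ => 2 * C)
    · exact fun n => (h2 n).aestronglyMeasurable
    · exact integrable_const _
    · intro n
      refine Eventually.of_forall fun x => ?_
      rw [Real.norm_of_nonneg (h8 n x)]
      exact h7 n x
    · filter_upwards [hcont] with x hx
      exact squeeze_zero (fun n => h8 n x) (fun n => h9 n x) (osc_tendsto hC hx)
  rw [integral_zero] at hlim
  obtain ⟨n, hn⟩ := ((tendsto_order.1 hlim).2 ε hε).exists
  exact ⟨ι n, hι n, ρ n, c n, R n, h1 n, h2 n, h3 n, h4 n, h5 n, h6 n, h7 n, hn.le⟩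

end Pool.Agent.Helper95.DZ
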